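import Mathlib
import Pool.Agent.Q29.QInv

/-!
# The `q`-inversion symmetry of the sums attached to words in `x, y, z`

`Z N q u` is the sum `Z_{N,q}(w)` of the problem for the word `w = u_1 ⋯ u_k`, over any field. We prove
`Z_{N,1/q}(w) = (-1)^k Z_{N,q}(w)` for all words in `𝔥⁰`.

Method: the sum is a sum over lattice paths with diagonal steps `D = (1, -1)` and steps for the letters;
inversion of `q` amounts (after a gauge transformation) to a weight `q^(r-s-1)` on the diagonal steps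
`(s, r) → (s+1, r-1)`. For the weighted diagonal step `E` with the weight `q^(-s) (1 - q^s) (1 - q^r)`, its
`q`-exponential `∑ q^(j(j-1)/2) E^j / (q; q)_j` commutes with all letters and transforms one sum over
diagonal steps into the other one.
-/

set_option autoImplicit false

namespace Pool.Agent.Results.MP_aa79fc_nt.QInversion

open Finset Pool.Agent.Q29.QInv

/-- `a_j`: the number of letters `y` among `u_1, …, u_j` -/
def cntY {k : ℕ} (u : Fin k → Letter) (j : Fin k) : ℕ := (univ.filter fun h => h ≤ j ∧ u h = .y).card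

/-- `b_j`: the number of letters `x` among `u_j, …, u_k` -/
def cntX {k : ℕ} (u : Fin k → Letter) (j : Fin k) : ℕ := (univ.filter fun h => j ≤ h ∧ u h = .x).card

/-- The factor of the index `n_j` in the summand of `Z_{N,q}`. -/
def factor {K : Type*} [Field K] (N : ℕ) (q : K) {k : ℕ} (u : Fin k → Letter) (n : Fin k → Fin (N + 1))
    (j : Fin k) : K :=
  match u j with
  | .x => 1 / (1 - q ^ (((n j : ℕ) : ℤ) + cntY u j))
  | .y => -1 / (1 - q ^ (((n j : ℕ) : ℤ) - N - cntX u j))
  | .z => 1 / (1 - q ^ (((n j : ℕ) : ℤ) + cntY u j)) - 1 / (1 - q ^ (((n j : ℕ) : ℤ) - N - cntX u j))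

open Classical in
/-- `Z_{N,q}(u_1 ⋯ u_k)`: the sum over `0 ≤ n_1 ≤ ⋯ ≤ n_k ≤ N` of the product of the factors. -/
noncomputable def Z {K : Type*} [Field K] (N : ℕ) (q : K) {k : ℕ} (u : Fin k → Letter) : K :=
  ∑ n : Fin k → Fin (N + 1) with Monotone n, ∏ j, factor N q u n j

/-- The word `u_1 ⋯ u_k` is in `𝔥⁰`: it is empty or begins with `y` and ends with `x`. -/
def Admissible {k : ℕ} (u : Fin k → Letter) : Prop :=
  ∀ i : Fin k, (i.1 = 0 → u i = .y) ∧ (i.1 + 1 = k → u i = .x)

/-! ### Reduction to path sums -/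

section

variable {K : Type*} [Field K]

open Classical in
/-- sums with general weights and a lower bound for the indices -/
noncomputable def Gen (w : Letter → ℕ → ℕ → K) (N : ℕ) {k : ℕ} (u : Fin k → Letter) (α n0 : ℕ) : K :=
  ∑ n : Fin k → Fin (N + 1), if Monotone n ∧ ∀ j, n0 ≤ (n j : ℕ) then
    ∏ j, w (u j) ((n j : ℕ) + α + cntY u j) (N + cntX u j - (n j : ℕ)) else 0

lemma cntY_zero {k : ℕ} (u : Fin (k + 1) → Letter) : cntY u 0 = if u 0 = .y then 1 else 0 := by
  unfold cntY
  rw [card_filter, Fin.sum_univ_succ]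
  simp

lemma cntY_succ {k : ℕ} (u : Fin (k + 1) → Letter) (i : Fin k) :
    cntY u i.succ = (if u 0 = .y then 1 else 0) + cntY (Fin.tail u) i := by
  unfold cntY
  rw [card_filter, card_filter, Fin.sum_univ_succ]
  congr 1
  · simp
  · refine sum_congr rfl fun h _ => ?_
    by_cases h1 : h ≤ i <;> simp [Fin.tail, h1]

lemma cntX_zero {k : ℕ} (u : Fin (k + 1) → Letter) : cntX u 0 = cX u := by
  unfold cntX cX
  simp

lemma cntX_succ {k : ℕ} (u : Fin (k + 1) → Letter) (i : Fin k) :
    cntX u i.succ = cntX (Fin.tail u) i := by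
  unfold cntX
  rw [card_filter, card_filter, Fin.sum_univ_succ]
  rw [if_neg (by simp), zero_add]
  refine sum_congr rfl fun h _ => ?_
  by_cases h1 : i ≤ h <;> simp [Fin.tail, h1]

lemma mono_cons {N k : ℕ} (m : Fin (N + 1)) (n : Fin k → Fin (N + 1)) :
    Monotone (Fin.cons m n : Fin (k + 1) → Fin (N + 1)) ↔ Monotone n ∧ ∀ j, m ≤ n j := by
  constructor
  · intro h
    refine ⟨fun i j hij => ?_, fun j => ?_⟩
    · have := h (Fin.succ_le_succ_iff.2 hij)
      simpa using this
    · have := h (Fin.zero_le j.succ)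
      simpa using this
  · rintro ⟨h1, h2⟩ i j
    refine Fin.cases ?_ (fun i' => ?_) i
    · refine Fin.cases (fun _ => le_rfl) (fun j' _ => ?_) j
      rw [Fin.cons_zero, Fin.cons_succ]
      exact h2 j'
    · refine Fin.cases (fun hij => ?_) (fun j' hij => ?_) j
      · exact absurd hij (by simp)
      · rw [Fin.cons_succ, Fin.cons_succ]
        exact h1 (Fin.succ_le_succ_iff.1 hij)

lemma Gen_eq (w : Letter → ℕ → ℕ → K) (hw : ∀ s s' r, w .y s r = w .y s' r) (N : ℕ) {k : ℕ}
    (u : Fin k → Letter) (α n0 : ℕ) (h : n0 ≤ N) :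
    Gen w N u α n0 = P w k u (n0 + α) (N - n0 + cX u) := by
  classical
  induction k generalizing α n0 with
  | zero =>
    unfold Gen
    rw [P]
    simp [Monotone]
  | succ k ih =>
    unfold Gen
    rw [← (Fin.consEquiv (fun _ => Fin (N + 1))).sum_comp, Fintype.sum_prod_type]
    have e1 : ∀ m : Fin (N + 1), ∑ n : Fin k → Fin (N + 1),
        (if Monotone ((Fin.consEquiv fun _ => Fin (N + 1)) (m, n)) ∧
            ∀ j, n0 ≤ (((Fin.consEquiv fun _ => Fin (N + 1)) (m, n)) j : ℕ) then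
          ∏ j, w (u j) ((((Fin.consEquiv fun _ => Fin (N + 1)) (m, n)) j : ℕ) + α + cntY u j)
            (N + cntX u j - (((Fin.consEquiv fun _ => Fin (N + 1)) (m, n)) j : ℕ)) else 0) =
        if n0 ≤ (m : ℕ) then w (u 0) ((m : ℕ) + α + cntY u 0) (N + cX u - m) *
          Gen w N (Fin.tail u) (α + if u 0 = .y then 1 else 0) m else 0 := by
      intro m
      by_cases hm : n0 ≤ (m : ℕ)
      · rw [if_pos hm]
        unfold Gen
        rw [mul_sum]
        refine sum_congr rfl fun n _ => ?_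
        have e0 : (Fin.consEquiv (fun _ => Fin (N + 1))) (m, n) = Fin.cons m n := rfl
        rw [e0]
        have hc : (Monotone (Fin.cons m n : Fin (k + 1) → Fin (N + 1)) ∧
            ∀ j, n0 ≤ ((Fin.cons m n : Fin (k + 1) → Fin (N + 1)) j : ℕ)) ↔
            (Monotone n ∧ ∀ j, (m : ℕ) ≤ (n j : ℕ)) := by
          rw [mono_cons]
          constructor
          · rintro ⟨⟨h1, h2⟩, h3⟩
            exact ⟨h1, fun j => h2 j⟩
          · rintro ⟨h1, h2⟩
            refine ⟨⟨h1, fun j => h2 j⟩, fun j => ?_⟩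
            refine Fin.cases ?_ (fun j' => ?_) j
            · simpa using hm
            · simpa using hm.trans (h2 j')
        by_cases hcn : Monotone n ∧ ∀ j, (m : ℕ) ≤ (n j : ℕ)
        · rw [if_pos hcn, if_pos (hc.2 hcn), Fin.prod_univ_succ, cntX_zero]
          congr 1
          refine prod_congr rfl fun j _ => ?_
          rw [cntY_succ, cntX_succ, Fin.cons_succ]
          congr 1
          omega
        · rw [if_neg hcn, if_neg (fun h => hcn (hc.1 h)), mul_zero]
      · rw [if_neg hm]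
        refine sum_eq_zero fun n _ => ?_
        rw [if_neg]
        rintro ⟨-, h2⟩
        exact hm (h2 0)
    rw [sum_congr rfl fun m _ => e1 m, P]
    rw [Sg_range _ (cX u) (L_zero w k u (fun s r hr => P_zero w k _ s r hr))]
    rw [Fin.sum_univ_eq_sum_range (fun m => if n0 ≤ m then w (u 0) (m + α + cntY u 0) (N + cX u - m) *
          Gen w N (Fin.tail u) (α + if u 0 = .y then 1 else 0) m else 0) (N + 1),
      show N + 1 = n0 + (N - n0 + 1) by omega, sum_range_add,
      sum_eq_zero (s := range n0) (fun m hm => if_neg (by have := mem_range.1 hm; omega)), zero_add]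
    refine sum_congr rfl fun i hi => ?_
    have hi' : i ≤ N - n0 := by have := mem_range.1 hi; omega
    rw [if_pos (by omega), ih _ _ _ (by omega), cX_succ, cntY_zero]
    cases h0 : u 0 with
    | y =>
      simp only [if_true, L, reduceCtorEq, if_false, zero_add]
      rw [hw _ (n0 + α + i)]
      congr 2 <;> omega
    | z =>
      simp only [L, reduceCtorEq, if_false, zero_add, add_zero]
      congr 2 <;> omega
    | x =>
      simp only [if_true, reduceCtorEq, if_false, add_zero]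
      rw [show N - n0 - i + (1 + cX (Fin.tail u)) = (N - n0 - i + cX (Fin.tail u)) + 1 by ring, L]
      congr 2 <;> omega

lemma one_le_cntY {k : ℕ} (u : Fin k → Letter) (hu : Admissible u) (j : Fin k) : 1 ≤ cntY u j := by
  unfold cntY
  refine card_pos.2 ⟨⟨0, j.pos⟩, ?_⟩
  simp only [mem_filter, mem_univ, true_and]
  exact ⟨Nat.zero_le _, (hu _).1 rfl⟩

lemma one_le_cntX {k : ℕ} (u : Fin k → Letter) (hu : Admissible u) (j : Fin k) : 1 ≤ cntX u j := by
  unfold cntX
  have hk := j.pos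
  refine card_pos.2 ⟨⟨k - 1, by omega⟩, ?_⟩
  simp only [mem_filter, mem_univ, true_and]
  refine ⟨?_, (hu _).2 (by simp; omega)⟩
  rw [Fin.le_def]
  simp only
  omega

lemma factor_eq (N : ℕ) (q : K) (h0 : q ≠ 0) (hq : ∀ m : ℕ, 1 ≤ m → q ^ m ≠ 1) {k : ℕ}
    (u : Fin k → Letter) (hu : Admissible u) (n : Fin k → Fin (N + 1)) (j : Fin k) :
    factor N q u n j = wt q (u j) ((n j : ℕ) + 0 + cntY u j) (N + cntX u j - (n j : ℕ)) := by
  have h1 := one_le_cntY u hu j
  have h2 := one_le_cntX u hu j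
  have h3 : (n j : ℕ) ≤ N := by omega
  obtain ⟨r, hr⟩ : ∃ r, r = N + cntX u j - (n j : ℕ) := ⟨_, rfl⟩
  obtain ⟨s, hs⟩ : ∃ s, s = (n j : ℕ) + 0 + cntY u j := ⟨_, rfl⟩
  have e1 : (((n j : ℕ) : ℤ) + cntY u j) = (s : ℤ) := by rw [hs]; push_cast; ring
  have e2 : (((n j : ℕ) : ℤ) - N - cntX u j) = -(r : ℤ) := by omega
  have hr1 := one_sub_ne q hq r (by omega)
  have hs1 := one_sub_ne q hq s (by omega)
  have hr0 : q ^ r ≠ 0 := pow_ne_zero _ h0
  have hr2 : q ^ r - 1 ≠ 0 := by
    intro h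
    apply hr1
    linear_combination -h
  unfold factor
  rw [← hr, ← hs, e1, e2]
  cases u j with
  | x => simp [wt]
  | y =>
    simp only [wt, zpow_neg, zpow_natCast]
    field_simp
    ring
  | z =>
    simp only [wt, zpow_neg, zpow_natCast, pow_add]
    field_simp
    ring

lemma factor_inv (N : ℕ) (q : K) (h0 : q ≠ 0) (hq : ∀ m : ℕ, 1 ≤ m → q ^ m ≠ 1) {k : ℕ}
    (u : Fin k → Letter) (hu : Admissible u) (n : Fin k → Fin (N + 1)) (j : Fin k) :
    factor N q⁻¹ u n j = -wt' q (u j) ((n j : ℕ) + 0 + cntY u j) (N + cntX u j - (n j : ℕ)) := by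
  have h1 := one_le_cntY u hu j
  have h2 := one_le_cntX u hu j
  have h3 : (n j : ℕ) ≤ N := by omega
  obtain ⟨r, hr⟩ : ∃ r, r = N + cntX u j - (n j : ℕ) := ⟨_, rfl⟩
  obtain ⟨s, hs⟩ : ∃ s, s = (n j : ℕ) + 0 + cntY u j := ⟨_, rfl⟩
  have e1 : (((n j : ℕ) : ℤ) + cntY u j) = (s : ℤ) := by rw [hs]; push_cast; ring
  have e2 : (((n j : ℕ) : ℤ) - N - cntX u j) = -(r : ℤ) := by omega
  have hr1 := one_sub_ne q hq r (by omega)
  have hs1 := one_sub_ne q hq s (by omega)
  have hr0 : q ^ r ≠ 0 := pow_ne_zero _ h0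
  have hs0 : q ^ s ≠ 0 := pow_ne_zero _ h0
  have hs2 : q ^ s - 1 ≠ 0 := by
    intro h
    apply hs1
    linear_combination -h
  unfold factor
  rw [← hr, ← hs, e1, e2]
  cases u j with
  | x =>
    simp only [wt', zpow_natCast, inv_pow]
    field_simp
    ring
  | y =>
    simp only [wt', zpow_neg, zpow_natCast, inv_pow, inv_inv]
    field_simp
  | z =>
    simp only [wt', zpow_neg, zpow_natCast, inv_pow, inv_inv, pow_add]
    field_simp
    ring

/-- The symmetry over an arbitrary field. -/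
theorem field_version (N : ℕ) (q : K) (h0 : q ≠ 0) (hq : ∀ m : ℕ, 1 ≤ m → q ^ m ≠ 1) {k : ℕ}
    (u : Fin k → Letter) (hu : Admissible u) : Z N q⁻¹ u = (-1) ^ k * Z N q u := by
  classical
  have e1 : Z N q u = Gen (wt q) N u 0 0 := by
    unfold Z Gen
    rw [sum_filter]
    refine sum_congr rfl fun n _ => ?_
    by_cases hm : Monotone n
    · rw [if_pos hm, if_pos ⟨hm, fun _ => Nat.zero_le _⟩]
      exact prod_congr rfl fun j _ => factor_eq N q h0 hq u hu n j
    · rw [if_neg hm, if_neg (fun h => hm h.1)]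
  have e2 : Z N q⁻¹ u = (-1) ^ k * Gen (wt' q) N u 0 0 := by
    unfold Z Gen
    rw [sum_filter, mul_sum]
    refine sum_congr rfl fun n _ => ?_
    by_cases hm : Monotone n
    · rw [if_pos hm, if_pos ⟨hm, fun _ => Nat.zero_le _⟩]
      rw [prod_congr rfl fun j _ => factor_inv N q h0 hq u hu n j, prod_neg]
      simp
    · rw [if_neg hm, if_neg (fun h => hm h.1), mul_zero]
  rw [e1, e2, Gen_eq (wt q) (fun _ _ _ => rfl) N u 0 0 (Nat.zero_le _),
    Gen_eq (wt' q) (fun _ _ _ => rfl) N u 0 0 (Nat.zero_le _)]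
  congr 1
  exact P_eq q hq k u hu _

end

/-- the ring homomorphism `f(q) ↦ f(1/q)` on polynomials -/
noncomputable def flipP : Polynomial ℚ →+* RatFunc ℚ :=
  Polynomial.eval₂RingHom (algebraMap ℚ (RatFunc ℚ)) (RatFunc.X (K := ℚ))⁻¹

lemma flipP_ne (p : Polynomial ℚ) (hp : p ≠ 0) : flipP p ≠ 0 := by
  intro h
  have h1 : IsAlgebraic ℚ (RatFunc.X (K := ℚ))⁻¹ := ⟨p, hp, h⟩
  have h2 := h1.inv
  rw [inv_inv] at h2
  have h3 := RatFunc.transcendental_X (K := ℚ)
  apply h3
  convert h2
  exact Subsingleton.elim _ _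

/-- the ring homomorphism `f(q) ↦ f(1/q)` -/
noncomputable def flip : RatFunc ℚ →+* RatFunc ℚ :=
  RatFunc.liftRingHom flipP (by
    intro p hp
    rw [Submonoid.mem_comap, mem_nonZeroDivisors_iff_ne_zero]
    exact flipP_ne p (nonZeroDivisors.ne_zero hp))

lemma flip_poly (p : Polynomial ℚ) : flip (algebraMap (Polynomial ℚ) (RatFunc ℚ) p) = flipP p := by
  have := RatFunc.liftRingHom_apply_div flipP (by
    intro p hp
    rw [Submonoid.mem_comap, mem_nonZeroDivisors_iff_ne_zero]
    exact flipP_ne p (nonZeroDivisors.ne_zero hp)) p 1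
  rw [map_one, div_one, map_one, div_one] at this
  exact this

lemma flip_X : flip (RatFunc.X (K := ℚ)) = (RatFunc.X (K := ℚ))⁻¹ := by
  rw [← RatFunc.algebraMap_X, flip_poly, RatFunc.algebraMap_X, flipP]
  simp

/-- a ring endomorphism of `ℚ(q)` is determined by the image of `q` -/
lemma hom_ext {σ τ : RatFunc ℚ →+* RatFunc ℚ} (h : σ RatFunc.X = τ RatFunc.X) : σ = τ := by
  have h1 : σ.comp (algebraMap (Polynomial ℚ) (RatFunc ℚ)) = τ.comp (algebraMap (Polynomial ℚ) (RatFunc ℚ)) := by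
    refine Polynomial.ringHom_ext (fun a => ?_) ?_
    · exact RingHom.congr_fun (Subsingleton.elim
        ((σ.comp (algebraMap (Polynomial ℚ) (RatFunc ℚ))).comp Polynomial.C)
        ((τ.comp (algebraMap (Polynomial ℚ) (RatFunc ℚ))).comp Polynomial.C)) a
    · simpa using h
  ext f
  induction f using RatFunc.induction_on with
  | f p q hq =>
    rw [map_div₀, map_div₀]
    have h2 := RingHom.congr_fun h1 p
    have h3 := RingHom.congr_fun h1 q
    simp only [RingHom.comp_apply] at h2 h3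
    rw [h2, h3]

lemma flip_flip : flip.comp flip = RingHom.id _ := by
  apply hom_ext
  rw [RingHom.comp_apply, flip_X, map_inv₀, flip_X, inv_inv, RingHom.id_apply]

lemma map_factor {K : Type*} [Field K] (σ : K →+* K) (N : ℕ) (q : K) {k : ℕ} (u : Fin k → Letter)
    (n : Fin k → Fin (N + 1)) (j : Fin k) : σ (factor N q u n j) = factor N (σ q) u n j := by
  unfold factor
  cases u j <;> simp

lemma map_Z {K : Type*} [Field K] (σ : K →+* K) (N : ℕ) (q : K) {k : ℕ} (u : Fin k → Letter) :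
    σ (Z N q u) = Z N (σ q) u := by
  unfold Z
  rw [map_sum]
  refine sum_congr rfl fun n _ => ?_
  rw [map_prod]
  exact prod_congr rfl fun j _ => map_factor σ N q u n j

/-- **The `q`-inversion symmetry.** There is exactly one automorphism `σ` of the field `ℚ(q)` with
`σ(q) = 1/q`, and `σ(Z_{N,q}(w)) = (-1)^k Z_{N,q}(w)` for all `N ≥ 0` and all words `w = u_1 ⋯ u_k` in the
letters `x, y, z` which are empty or begin with `y` and end with `x`. -/
theorem result :
    (∃! σ : RatFunc ℚ ≃+* RatFunc ℚ, σ RatFunc.X = (RatFunc.X)⁻¹) ∧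
    ∀ σ : RatFunc ℚ ≃+* RatFunc ℚ, σ RatFunc.X = (RatFunc.X)⁻¹ →
      ∀ (N k : ℕ) (u : Fin k → Letter), Admissible u →
        σ (Z N RatFunc.X u) = (-1) ^ k * Z N RatFunc.X u := by
  refine ⟨⟨RingEquiv.ofRingHom flip flip flip_flip flip_flip, flip_X, fun τ hτ => ?_⟩, ?_⟩
  · have h1 : (τ : RatFunc ℚ →+* RatFunc ℚ) = flip := hom_ext (by rw [flip_X]; exact hτ)
    ext f
    exact RingHom.congr_fun h1 f
  · intro σ hσ N k u hu
    have h1 := map_Z (σ : RatFunc ℚ →+* RatFunc ℚ) N RatFunc.X u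
    have h2 : (σ : RatFunc ℚ →+* RatFunc ℚ) RatFunc.X = (RatFunc.X)⁻¹ := hσ
    rw [h2] at h1
    have h3 : σ (Z N RatFunc.X u) = Z N (RatFunc.X)⁻¹ u := h1
    rw [h3]
    refine field_version N RatFunc.X RatFunc.X_ne_zero (fun m hm h => ?_) u hu
    apply RatFunc.transcendental_X (K := ℚ)
    refine ⟨Polynomial.X ^ m - 1, ?_, by simp [h]⟩
    intro h4
    have h5 := congrArg (Polynomial.eval 0) h4
    simp [zero_pow (by omega : m ≠ 0)] at h5

end Pool.Agent.Results.MP_aa79fc_nt.QInversion
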